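import Pool.Agent.H32.F14.Iface

/-!
# F14 : parts D2s and D2d
-/

set_option autoImplicit false
set_option linter.unusedSectionVars false
set_option linter.unusedVariables false

noncomputable section

open Classical

namespace Pool.Agent.H51.F14

open Pool.Agent.H32.F14

section
variable {ι β J H : Type} [Fintype ι] [Fintype β] [Fintype J] [Fintype H]
  {e : ι → β → ℕ} {full dem : ι → ℕ} {Z : J → Finset ι} {X : H → Finset ι}
  {I : J → Finset H} {gam : J → ℕ}

/-- sum over `Aj` -/
lemma sum_Aj (hCS : IsCS e dem Z X I gam) (j : J) (g : ι → ℕ) :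
    ∑ s ∈ Aj Z X I j, g s = ∑ s ∈ Z j, g s + ∑ i ∈ I j, ∑ s ∈ X i, g s := by
  unfold Aj
  rw [Finset.sum_union, Finset.sum_biUnion]
  · intro i _ i' _ hii'
    exact hCS.XX i i' hii'
  · rw [Finset.disjoint_biUnion_right]
    intro i _
    exact hCS.ZX j i

lemma eA_Aj (hCS : IsCS e dem Z X I gam) (j : J) (C : β) :
    eA e (Aj Z X I j) C = eA e (Z j) C + ∑ i ∈ I j, eA e (X i) C := by
  unfold eA
  exact sum_Aj hCS j _

lemma demA_Aj (hCS : IsCS e dem Z X I gam) (j : J) :
    demA dem (Aj Z X I j) = demA dem (Z j) + ∑ i ∈ I j, demA dem (X i) := by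
  unfold demA
  exact sum_Aj hCS j _

/-- total sum -/
lemma sum_all (hCS : IsCS e dem Z X I gam) (g : ι → ℕ) :
    ∑ s, g s = ∑ j, ∑ s ∈ Z j, g s + ∑ i, ∑ s ∈ X i, g s := by
  have h : (Finset.univ : Finset ι) = (Finset.univ.biUnion Z) ∪ (Finset.univ.biUnion X) := by
    ext s
    simp only [Finset.mem_univ, Finset.mem_union, Finset.mem_biUnion, true_and, true_iff]
    rcases hCS.cover s with ⟨j, hj⟩ | ⟨i, hi⟩
    · exact Or.inl ⟨j, hj⟩
    · exact Or.inr ⟨i, hi⟩
  rw [h, Finset.sum_union, Finset.sum_biUnion, Finset.sum_biUnion]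
  · intro i _ i' _ hii'
    exact hCS.XX i i' hii'
  · intro i _ i' _ hii'
    exact hCS.ZZ i i' hii'
  · rw [Finset.disjoint_biUnion_right]
    intro i _
    rw [Finset.disjoint_biUnion_left]
    intro j _
    exact hCS.ZX j i

lemma dC_eq (hCS : IsCS e dem Z X I gam) (C : β) :
    dC e C = ∑ j, eA e (Z j) C + ∑ i, eA e (X i) C := by
  unfold dC eA
  exact sum_all hCS _

lemma eA_le_dC (A : Finset ι) (C : β) : eA e A C ≤ dC e C := by
  unfold eA dC
  exact Finset.sum_le_sum_of_subset (Finset.subset_univ _)

/-- at most one hub of a set is touched by a big component -/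
lemma sum_hub_one (hCS : IsCS e dem Z X I gam) (T : Finset H) (C : β) (hC : dC e C ≠ 3)
    (i : H) (hi : i ∈ T) (hne : eA e (X i) C ≠ 0) (g : ℕ → ℕ) (hg : g 0 = 0) :
    ∑ i' ∈ T, g (eA e (X i') C) = g (eA e (X i) C) := by
  apply Finset.sum_eq_single_of_mem i hi
  intro i' _ hi'
  rcases hCS.excl5 i i' (Ne.symm hi') C hC with h | h
  · exact absurd h hne
  · rw [h, hg]

lemma sty_singleton {j : J} (hj : Sty e full dem Z X I gam j) :
    ∃ s, Z j = {s} ∧ full s = 5 ∧ dem s = 1 := by
  obtain ⟨h1, h2, _⟩ := hj
  obtain ⟨s, hs⟩ := Finset.card_eq_one.mp h1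
  refine ⟨s, hs, ?_⟩
  exact h2 s (by rw [hs]; simp)

/-- local contribution of a component for special clusters -/
lemma sty_local (hB : DBase e full dem) (hCS : IsCS e dem Z X I gam) {j : J}
    (hj : Sty e full dem Z X I gam j) (C : β) :
    min (uC e C) (eA e (Aj Z X I j) C) =
      ∑ i ∈ I j, min (uC e C) (eA e (X i) C) +
      ((if dC e C ≠ 3 ∧ (∀ i ∈ I j, eA e (X i) C = 0) ∧ eA e (Z j) C ≠ 0 then 1 else 0) +
        (if dC e C = 3 then eA e (Z j) C else 0)) := by
  obtain ⟨s, hs, hfull, hdem⟩ := sty_singleton hj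
  obtain ⟨hj1, hj2, hj3, hj4, hj5⟩ := hj
  have hz : eA e (Z j) C = e s C := by
    unfold eA; rw [hs]; simp
  by_cases hC : dC e C = 3
  · -- 3-component
    have hu : uC e C = 2 := by unfold uC; rw [if_pos hC]
    have hz1 : eA e (Z j) C ≤ 1 := by
      rw [hz]; exact hB.simple s C (by omega)
    have hle : eA e (Aj Z X I j) C ≤ 3 := by
      have := eA_le_dC (e := e) (Aj Z X I j) C
      omega
    rw [hu]
    have hsum := eA_Aj hCS j C
    have hnb : C ∉ beta e Z X I j := by rw [hj5]; simp
    have hif1 : ¬ (dC e C ≠ 3 ∧ (∀ i ∈ I j, eA e (X i) C = 0) ∧ eA e (Z j) C ≠ 0) := by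
      intro h; exact h.1 hC
    rw [if_neg hif1, if_pos hC]
    by_cases h3 : eA e (Aj Z X I j) C = 3
    · -- some hub has all three
      have hex : ∃ i ∈ I j, eA e (X i) C = 3 := by
        by_contra hcon
        push Not at hcon
        apply hnb
        unfold beta
        simp only [Finset.mem_filter, Finset.mem_univ, true_and]
        exact ⟨hC, h3, by omega, hcon⟩
      obtain ⟨i, hi, hi3⟩ := hex
      have hsplit := Finset.add_sum_erase (I j) (fun i => eA e (X i) C) hi
      have hsplit2 := Finset.add_sum_erase (I j) (fun i => min 2 (eA e (X i) C)) hi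
      have hrest : ∑ x ∈ (I j).erase i, eA e (X x) C = 0 := by omega
      have hrest2 : ∑ x ∈ (I j).erase i, min 2 (eA e (X x) C) = 0 := by
        have : ∑ x ∈ (I j).erase i, min 2 (eA e (X x) C) ≤ ∑ x ∈ (I j).erase i, eA e (X x) C :=
          Finset.sum_le_sum (fun x _ => min_le_right _ _)
        omega
      rw [← hsplit2, hrest2, hi3, h3]
      have : eA e (Z j) C = 0 := by omega
      rw [this]
      rfl
    · have hle2 : eA e (Aj Z X I j) C ≤ 2 := by omega
      have hx : ∀ i ∈ I j, min 2 (eA e (X i) C) = eA e (X i) C := by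
        intro i hi
        have : eA e (X i) C ≤ ∑ i ∈ I j, eA e (X i) C :=
          Finset.single_le_sum (f := fun i => eA e (X i) C) (fun _ _ => Nat.zero_le _) hi
        omega
      rw [Finset.sum_congr rfl hx]
      omega
  · have hu : uC e C = 1 := by unfold uC; rw [if_neg hC]
    rw [hu, if_neg hC]
    have hsum := eA_Aj hCS j C
    by_cases hh : ∀ i ∈ I j, eA e (X i) C = 0
    · have h0 : ∑ i ∈ I j, eA e (X i) C = 0 := Finset.sum_eq_zero hh
      have h0' : ∑ i ∈ I j, min 1 (eA e (X i) C) = 0 :=
        Finset.sum_eq_zero (fun i hi => by rw [hh i hi]; rfl)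
      rw [h0'] 
      by_cases hz0 : eA e (Z j) C = 0
      · rw [if_neg (by tauto)]
        omega
      · rw [if_pos ⟨hC, hh, hz0⟩]
        omega
    · push Not at hh
      obtain ⟨i, hi, hne⟩ := hh
      have h1 := sum_hub_one hCS (I j) C hC i hi hne (fun n => min 1 n) rfl
      have h2 := sum_hub_one hCS (I j) C hC i hi hne (fun n => n) rfl
      rw [h1, if_neg (by intro h; exact hne (h.2.1 i hi))]
      omega

/-- the count (U) for special clusters -/
lemma sty_count (hB : DBase e full dem) (hCS : IsCS e dem Z X I gam) {j : J}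
    (hj : Sty e full dem Z X I gam j) :
    (Finset.univ.filter (fun C => dC e C ≠ 3 ∧ (∀ i ∈ I j, eA e (X i) C = 0) ∧
        eA e (Z j) C ≠ 0)).card + (I j).card +
      ∑ C ∈ Finset.univ.filter (fun C => dC e C = 3), eA e (Z j) C = 3 := by
  obtain ⟨s, hs, hfull, hdem⟩ := sty_singleton hj
  have hr := hCS.rAj j
  have hrX := fun i => hCS.rX i
  have hgam : gam j = 2 := hj.2.2.2.1
  have hsum : rA e (Aj Z X I j) = ∑ i ∈ I j, rA e (X i) +
      ((Finset.univ.filter (fun C => dC e C ≠ 3 ∧ (∀ i ∈ I j, eA e (X i) C = 0) ∧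
        eA e (Z j) C ≠ 0)).card +
      ∑ C ∈ Finset.univ.filter (fun C => dC e C = 3), eA e (Z j) C) := by
    unfold rA
    rw [Finset.sum_congr rfl (fun C _ => sty_local hB hCS hj C), Finset.sum_add_distrib,
      Finset.sum_add_distrib, Finset.sum_comm, Finset.card_filter, Finset.sum_filter]
  have hd := demA_Aj hCS j
  have hdz : demA dem (Z j) = 1 := by
    unfold demA; rw [hs]; simp [hdem]
  have hrs : ∑ i ∈ I j, rA e (X i) = ∑ i ∈ I j, demA dem (X i) + (I j).card := by
    rw [Finset.sum_congr rfl (fun i _ => hrX i), Finset.sum_add_distrib]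
    simp
  omega

/-- the second set in `ov2` is empty for special clusters -/
lemma sty_eK (hB : DBase e full dem) (hCS : IsCS e dem Z X I gam) {j : J}
    (hj : Sty e full dem Z X I gam j) (i : H) (hi : i ∈ I j) : 2 ≤ eK e Z X i j := by
  obtain ⟨s, hs, hfull, hdem⟩ := sty_singleton hj
  have hov := hCS.ov2 j i hi
  have h2 : (Finset.univ.filter (fun C => dC e C = 3 ∧ eA e (Aj Z X I j) C = 3 ∧
      eA e (X i) C ≠ 0 ∧ eA e (X i) C ≠ 3)).card = 0 := by
    rw [Finset.card_eq_zero, Finset.filter_eq_empty_iff]
    rintro C _ ⟨hC, h3, hx0, hx3⟩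
    have hnb : C ∉ beta e Z X I j := by rw [hj.2.2.2.2]; simp
    have hz1 : eA e (Z j) C ≤ 1 := by
      have : eA e (Z j) C = e s C := by unfold eA; rw [hs]; simp
      rw [this]; exact hB.simple s C (by omega)
    apply hnb
    unfold beta
    simp only [Finset.mem_filter, Finset.mem_univ, true_and]
    refine ⟨hC, h3, by omega, ?_⟩
    intro i' hi' hi3
    by_cases hii : i' = i
    · rw [hii] at hi3; exact hx3 hi3
    · have hsum := eA_Aj hCS j C
      have hle : eA e (X i) C + eA e (X i') C ≤ ∑ i ∈ I j, eA e (X i) C := by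
        have := Finset.sum_le_sum_of_subset (f := fun i => eA e (X i) C)
          (show ({i, i'} : Finset H) ⊆ I j by
            intro x hx; simp only [Finset.mem_insert, Finset.mem_singleton] at hx
            rcases hx with rfl | rfl <;> assumption)
        rw [Finset.sum_pair (Ne.symm hii)] at this
        exact this
      omega
  rw [h2, add_zero] at hov
  refine le_trans hov ?_
  unfold eK
  rw [Finset.card_eq_sum_ones, Finset.sum_filter, Finset.sum_filter]
  apply Finset.sum_le_sum
  intro C _
  by_cases h : dC e C ≠ 3 ∧ eA e (X i) C ≠ 0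
  · rw [if_pos h]
    split_ifs with h'
    · have := h'.2.2; omega
    · exact Nat.zero_le _
  · rw [if_neg h, if_neg (by tauto)]

/-- distribution of the edges of `Z j` -/
lemma out_split (hCS : IsCS e dem Z X I gam) (j : J) :
    ∑ C, eA e (Z j) C =
      ∑ C ∈ Finset.univ.filter (fun C => dC e C ≠ 3 ∧ (∀ i ∈ I j, eA e (X i) C = 0)),
        eA e (Z j) C + ∑ i ∈ I j, eK e Z X i j +
      ∑ C ∈ Finset.univ.filter (fun C => dC e C = 3), eA e (Z j) C := by
  have hK : ∑ i ∈ I j, eK e Z X i j =
      ∑ C ∈ Finset.univ.filter (fun C => dC e C ≠ 3 ∧ ¬ (∀ i ∈ I j, eA e (X i) C = 0)),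
        eA e (Z j) C := by
    unfold eK
    simp_rw [Finset.sum_filter]
    rw [Finset.sum_comm]
    apply Finset.sum_congr rfl
    intro C _
    by_cases hC : dC e C = 3
    · simp [hC]
    · by_cases hh : ∀ i ∈ I j, eA e (X i) C = 0
      · rw [if_neg (by tauto)]
        apply Finset.sum_eq_zero
        intro i hi
        rw [if_neg (by intro h; exact h.2 (hh i hi))]
      · rw [if_pos ⟨hC, hh⟩]
        push Not at hh
        obtain ⟨i, hi, hne⟩ := hh
        rw [Finset.sum_eq_single_of_mem i hi]
        · rw [if_pos ⟨hC, hne⟩]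
        · intro i' _ hi'
          rcases hCS.excl5 i i' (Ne.symm hi') C hC with h | h
          · exact absurd h hne
          · rw [if_neg (by intro h'; exact h'.2 h)]
  rw [hK]
  simp_rw [Finset.sum_filter]
  rw [← Finset.sum_add_distrib, ← Finset.sum_add_distrib]
  apply Finset.sum_congr rfl
  intro C _
  by_cases hC : dC e C = 3
  · simp [hC]
  · by_cases hh : ∀ i ∈ I j, eA e (X i) C = 0
    · rw [if_pos ⟨hC, hh⟩, if_neg (by tauto), if_neg hC]; rfl
    · rw [if_neg (by tauto), if_pos ⟨hC, hh⟩, if_neg hC]; simp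

end

/-- D2s -/
theorem d2s : StmtD2s := by
  intro ι β J H _ _ _ _ e full dem Z X I gam hB hCS j hj
  obtain ⟨s, hs, hfull, hdem⟩ := sty_singleton hj
  have hcount := sty_count hB hCS hj
  have hz : ∀ C, eA e (Z j) C = e s C := by
    intro C; unfold eA; rw [hs]; simp
  have htot : ∑ C, eA e (Z j) C ≤ 5 := by
    have := hB.le_full s
    rw [hfull] at this
    rw [Finset.sum_congr rfl (fun C _ => hz C)]
    exact this
  have hout := out_split hCS j
  have hK2 : ∀ i ∈ I j, 2 ≤ eK e Z X i j := fun i hi => sty_eK hB hCS hj i hi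
  -- lower bound of the first sum
  set T := Finset.univ.filter (fun C => dC e C ≠ 3 ∧ (∀ i ∈ I j, eA e (X i) C = 0) ∧
        eA e (Z j) C ≠ 0) with hT
  set T' := Finset.univ.filter (fun C => dC e C ≠ 3 ∧ (∀ i ∈ I j, eA e (X i) C = 0)) with hT'
  have hTT : ∑ C ∈ T', eA e (Z j) C = ∑ C ∈ T, eA e (Z j) C := by
    rw [hT, hT']
    simp_rw [Finset.sum_filter]
    apply Finset.sum_congr rfl
    intro C _
    by_cases h : dC e C ≠ 3 ∧ (∀ i ∈ I j, eA e (X i) C = 0)
    · rw [if_pos h]
      by_cases h0 : eA e (Z j) C = 0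
      · rw [if_neg (by tauto), h0]
      · rw [if_pos ⟨h.1, h.2, h0⟩]
    · rw [if_neg h, if_neg (by tauto)]
  have hT1 : ∀ C ∈ T, 1 ≤ eA e (Z j) C := by
    intro C hC
    rw [hT, Finset.mem_filter] at hC
    have := hC.2.2.2
    omega
  have hTge : T.card ≤ ∑ C ∈ T, eA e (Z j) C := by
    have := Finset.card_nsmul_le_sum T (fun C => eA e (Z j) C) 1 hT1
    simpa using this
  have hKge : 2 * (I j).card ≤ ∑ i ∈ I j, eK e Z X i j := by
    have := Finset.card_nsmul_le_sum (I j) (fun i => eK e Z X i j) 2 hK2
    simp only [smul_eq_mul] at this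
    omega
  rw [hTT] at hout
  have hKi : ∀ i ∈ I j, eK e Z X i j ≤ 3 := by
    intro i hi
    have hsplit := Finset.add_sum_erase (I j) (fun i => eK e Z X i j) hi
    have hge : 2 * ((I j).erase i).card ≤ ∑ i ∈ (I j).erase i, eK e Z X i j := by
      have := Finset.card_nsmul_le_sum ((I j).erase i) (fun i => eK e Z X i j) 2
        (fun x hx => hK2 x (Finset.mem_of_mem_erase hx))
      simp only [smul_eq_mul] at this
      omega
    have hc := Finset.card_erase_of_mem hi
    have hpos : 0 < (I j).card := Finset.card_pos.mpr ⟨i, hi⟩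
    omega
  refine ⟨?_, fun i hi => ⟨hK2 i hi, hKi i hi⟩, hcount⟩
  intro C
  by_cases hC : dC e C ≤ 5
  · rw [hz]
    have := hB.simple s C hC
    omega
  · by_cases hh : ∀ i ∈ I j, eA e (X i) C = 0
    · by_cases h0 : eA e (Z j) C = 0
      · omega
      · have hCT : C ∈ T := by
          rw [hT, Finset.mem_filter]
          exact ⟨Finset.mem_univ _, by omega, hh, h0⟩
        have hsplit := Finset.add_sum_erase T (fun C => eA e (Z j) C) hCT
        have hge : (T.erase C).card ≤ ∑ C ∈ T.erase C, eA e (Z j) C := by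
          have := Finset.card_nsmul_le_sum (T.erase C) (fun C => eA e (Z j) C) 1
            (fun x hx => hT1 x (Finset.mem_of_mem_erase hx))
          simpa using this
        have hc := Finset.card_erase_of_mem hCT
        have hpos : 0 < T.card := Finset.card_pos.mpr ⟨C, hCT⟩
        omega
    · push Not at hh
      obtain ⟨i, hi, hne⟩ := hh
      have h1 := hKi i hi
      have h2 : eA e (Z j) C ≤ eK e Z X i j := by
        unfold eK
        apply Finset.single_le_sum (f := fun C => eA e (Z j) C) (fun _ _ => Nat.zero_le _)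
        rw [Finset.mem_filter]
        exact ⟨Finset.mem_univ _, by omega, hne⟩
      omega

/-- the allowance of a non-special, non-inner cluster is at least 3 -/
lemma allow_ge {ι β J H : Type} [Fintype ι] [Fintype β] [Fintype J] [Fintype H]
    {e : ι → β → ℕ} {full dem : ι → ℕ} {Z : J → Finset ι} {X : H → Finset ι}
    {I : J → Finset H} {gam : J → ℕ} (j : J) (C : β) (hz : eA e (Z j) C ≠ 0) :
    3 ≤ allow e full dem Z X I gam j C := by
  unfold allow
  rw [if_neg hz]
  split_ifs <;> omega

lemma allow_nosty {ι β J H : Type} [Fintype ι] [Fintype β] [Fintype J] [Fintype H]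
    {e : ι → β → ℕ} {full dem : ι → ℕ} {Z : J → Finset ι} {X : H → Finset ι}
    {I : J → Finset H} {gam : J → ℕ} (j : J) (C : β) (hz : eA e (Z j) C ≠ 0)
    (hs : ¬ Sty e full dem Z X I gam j) :
    min 9 (2 + eA e (Z j) C) ≤ allow e full dem Z X I gam j C := by
  unfold allow
  rw [if_neg hz]
  split_ifs <;> omega

/-- a big component touching no hub gives away its whole mass -/
lemma nohub (ι β J H : Type) [Fintype ι] [Fintype β] [Fintype J] [Fintype H]
    (e : ι → β → ℕ) (full dem : ι → ℕ) (Z : J → Finset ι) (X : H → Finset ι)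
    (I : J → Finset H) (gam : J → ℕ) (hB : DBase e full dem) (hCS : IsCS e dem Z X I gam)
    (C : β) (hC : dC e C ≠ 3) (hh : ∀ i, eA e (X i) C = 0) :
    9 ≤ ∑ j, allow e full dem Z X I gam j C := by
  have hd5 : 5 ≤ dC e C := by
    have h1 := hB.ge3 C
    have h2 := hB.odd C
    obtain ⟨k, hk⟩ := h2
    omega
  have hd : dC e C = ∑ j, eA e (Z j) C := by
    rw [dC_eq hCS C, Finset.sum_eq_zero (fun i _ => hh i), add_zero]
  set T := Finset.univ.filter (fun j => eA e (Z j) C ≠ 0) with hT
  have hsumT : ∑ j, eA e (Z j) C = ∑ j ∈ T, eA e (Z j) C := by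
    rw [hT, Finset.sum_filter]
    apply Finset.sum_congr rfl
    intro j _
    split_ifs with h
    · rfl
    · simpa using h
  have hleT : ∑ j ∈ T, allow e full dem Z X I gam j C ≤ ∑ j, allow e full dem Z X I gam j C :=
    Finset.sum_le_sum_of_subset (Finset.subset_univ _)
  refine le_trans ?_ hleT
  have hmemT : ∀ j, j ∈ T → eA e (Z j) C ≠ 0 := by
    intro j hj
    rw [hT, Finset.mem_filter] at hj
    exact hj.2
  rcases Nat.lt_or_ge 2 T.card with h3 | h2
  · -- at least three clusters
    have := Finset.card_nsmul_le_sum T (fun j => allow e full dem Z X I gam j C) 3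
      (fun j hj => allow_ge j C (hmemT j hj))
    simp only [smul_eq_mul] at this
    omega
  · interval_cases hc : T.card
    · have hTe : T = ∅ := Finset.card_eq_zero.mp hc
      rw [hTe, Finset.sum_empty] at hsumT
      omega
    · obtain ⟨j, hj⟩ := Finset.card_eq_one.mp hc
      rw [hj, Finset.sum_singleton] at hsumT
      rw [hj, Finset.sum_singleton]
      have hz : eA e (Z j) C = dC e C := by omega
      unfold allow
      rw [if_neg (by omega), if_pos hz]
    · obtain ⟨j1, j2, hne, hj⟩ := Finset.card_eq_two.mp hc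
      have hz1 := hmemT j1 (by rw [hj]; simp)
      have hz2 := hmemT j2 (by rw [hj]; simp)
      rw [hj, Finset.sum_pair hne] at hsumT
      rw [hj, Finset.sum_pair hne]
      have hsty : ∀ j, Sty e full dem Z X I gam j → eA e (Z j) C ≤ 3 ∧
          (dC e C ≤ 5 → eA e (Z j) C ≤ 1) := by
        intro j hj
        refine ⟨(d2s ι β J H e full dem Z X I gam hB hCS j hj).1 C, ?_⟩
        intro h5
        obtain ⟨s, hs, _⟩ := sty_singleton hj
        have : eA e (Z j) C = e s C := by unfold eA; rw [hs]; simp
        rw [this]; exact hB.simple s C h5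
      have hodd : dC e C ≠ 6 := by
        obtain ⟨k, hk⟩ := hB.odd C
        omega
      have hg1 := allow_ge (full := full) (dem := dem) (X := X) (I := I) (gam := gam) j1 C hz1
      have hg2 := allow_ge (full := full) (dem := dem) (X := X) (I := I) (gam := gam) j2 C hz2
      by_cases hs1 : Sty e full dem Z X I gam j1
      · by_cases hs2 : Sty e full dem Z X I gam j2
        · have h1 := hsty j1 hs1
          have h2 := hsty j2 hs2
          have hd5' : dC e C = 5 := by omega
          have h1' := h1.2 (by omega)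
          have h2' := h2.2 (by omega)
          omega
        · have h1 := hsty j1 hs1
          have h2 := allow_nosty j2 C hz2 hs2
          by_cases h5 : dC e C ≤ 5
          · have := h1.2 h5
            omega
          · omega
      · by_cases hs2 : Sty e full dem Z X I gam j2
        · have h1 := allow_nosty j1 C hz1 hs1
          have h2 := hsty j2 hs2
          by_cases h5 : dC e C ≤ 5
          · have := h2.2 h5
            omega
          · omega
        · have h1 := allow_nosty j1 C hz1 hs1
          have h2 := allow_nosty j2 C hz2 hs2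
          omega

/-- D2d -/
theorem d2d : StmtD2d := by
  intro ι β J H _ _ _ _ e full dem Z X I gam hB hCS
  have hJ : ∑ j, massJ e full dem Z X I gam j =
      ∑ C, (∑ j, (if dC e C ≠ 3 ∧ ∀ i ∈ I j, eA e (X i) C = 0 then
        allow e full dem Z X I gam j C else 0) +
        ∑ j, (if dC e C = 3 then 3 * eA e (Z j) C else 0)) := by
    rw [Finset.sum_add_distrib, Finset.sum_comm, Finset.sum_comm (s := Finset.univ (α := β)),
      ← Finset.sum_add_distrib]
    apply Finset.sum_congr rfl
    intro j _
    unfold massJ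
    rw [Finset.sum_filter, Finset.sum_filter, Finset.mul_sum]
    congr 1
    apply Finset.sum_congr rfl
    intro C _
    split_ifs <;> simp
  have hH : ∑ i, massH e full dem Z X I gam i =
      ∑ C, (∑ i, (if dC e C ≠ 3 ∧ eA e (X i) C ≠ 0 then
        (9 - red e full dem Z X I gam i C) else 0) +
        ∑ i, (if dC e C = 3 then 3 * eA e (X i) C else 0)) := by
    rw [Finset.sum_add_distrib, Finset.sum_comm, Finset.sum_comm (s := Finset.univ (α := β)),
      ← Finset.sum_add_distrib]
    apply Finset.sum_congr rfl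
    intro i _
    unfold massH
    rw [Finset.sum_filter, Finset.sum_filter, Finset.mul_sum]
    congr 1
    apply Finset.sum_congr rfl
    intro C _
    split_ifs <;> simp
  rw [hJ, hH, ← Finset.sum_add_distrib]
  have hcard : 9 * Fintype.card β = ∑ _C : β, 9 := by
    simp [Finset.card_univ, mul_comm]
  rw [hcard]
  apply Finset.sum_le_sum
  intro C _
  by_cases hC : dC e C = 3
  · have hd := dC_eq hCS C
    simp only [hC, ne_eq, not_true_eq_false, false_and, if_false, if_true, Finset.sum_const_zero,
      zero_add]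
    rw [← Finset.mul_sum, ← Finset.mul_sum]
    omega
  · simp only [hC, ne_eq, not_false_eq_true, true_and, if_false, Finset.sum_const_zero, add_zero]
    by_cases hh : ∀ i, eA e (X i) C = 0
    · have h9 := nohub ι β J H e full dem Z X I gam hB hCS C hC hh
      have : ∑ j, (if ∀ i ∈ I j, eA e (X i) C = 0 then allow e full dem Z X I gam j C else 0) =
          ∑ j, allow e full dem Z X I gam j C := by
        apply Finset.sum_congr rfl
        intro j _
        rw [if_pos (fun i _ => hh i)]
      rw [this]
      exact le_trans h9 (Nat.le_add_right _ _)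
    · push Not at hh
      obtain ⟨i, hne⟩ := hh
      have hother : ∀ i', i' ≠ i → eA e (X i') C = 0 := by
        intro i' hi'
        rcases hCS.excl5 i i' (Ne.symm hi') C hC with h | h
        · exact absurd h hne
        · exact h
      have h1 : ∑ x, (if ¬ eA e (X x) C = 0 then 9 - red e full dem Z X I gam x C else 0) =
          9 - red e full dem Z X I gam i C := by
        rw [Finset.sum_eq_single_of_mem i (Finset.mem_univ _)]
        · rw [if_pos hne]
        · intro i' _ hi'
          rw [if_neg (by rw [not_not]; exact hother i' hi')]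
      have h2 : ∑ j, (if ∀ i ∈ I j, eA e (X i) C = 0 then allow e full dem Z X I gam j C else 0) =
          ∑ j ∈ Finset.univ.filter (fun l => i ∉ I l), allow e full dem Z X I gam j C := by
        rw [Finset.sum_filter]
        apply Finset.sum_congr rfl
        intro j _
        by_cases hij : i ∈ I j
        · rw [if_neg (by intro h; exact hne (h i hij)), if_neg (by simpa using hij)]
        · rw [if_pos hij, if_pos]
          intro i' hi'
          apply hother
          rintro rfl
          exact hij hi'
      rw [h1, h2]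
      have h3 : red e full dem Z X I gam i C ≤
          ∑ j ∈ Finset.univ.filter (fun l => i ∉ I l), allow e full dem Z X I gam j C := by
        unfold red
        exact min_le_right _ _
      have h4 : red e full dem Z X I gam i C ≤ 9 := by
        unfold red
        exact min_le_left _ _
      omega

end Pool.Agent.H51.F14
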