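import Pool.Agent.H32.F14.GDefs

/-!
# F14 : parts G0 and G1
-/

set_option autoImplicit false
set_option linter.unusedSectionVars false
set_option linter.unusedVariables false

noncomputable section

open Classical

namespace Pool.Agent.H51.F14

open Pool.Agent.H32.F14

/-- G0, with the extra hypothesis that every vertex has a dart (`StmtG0` itself is false for
nonempty `V` and empty `D`). -/
def StmtG0' : Prop := ∀ (V D : Type) [Fintype V] [Fintype D] (G : DG V D),
  (∀ v, ∃ d, G.att d = v) →
  (∀ d, G.att (G.inv d) ≠ G.att d) →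
  (∀ d d' : D, G.att d = G.att d' → G.att (G.inv d) = G.att (G.inv d') → d = d') →
  ∃ (S : Finset V) (Q : Finset (Finset V)), Bar G S Q

theorem g0 (hT : StmtT) : StmtG0' := by
  intro V D _ _ G hdart hloop hsimple
  let H : SimpleGraph V :=
    { Adj := fun u v => ∃ d, G.att d = u ∧ G.att (G.inv d) = v
      symm := ⟨by
        rintro u v ⟨d, h1, h2⟩
        exact ⟨G.inv d, h2, by rw [G.inv_inv]; exact h1⟩⟩
      loopless := ⟨by
        rintro u ⟨d, h1, h2⟩
        exact hloop d (by rw [h1, h2])⟩ }
  obtain ⟨S, Q, h1, h2, h3, h4, h5, h6, μ, h7, h8⟩ := hT V H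
  refine ⟨S, Q, ⟨h1, h2, ?_, h4, ?_, ?_, ?_⟩⟩
  · intro C hC C' hC' v hv hv'
    by_contra hne
    exact (Finset.disjoint_left.mp (h3 C hC C' hC' hne)) hv hv'
  · intro C hC d hd
    exact h5 C hC (G.att d) hd (G.att (G.inv d)) ⟨d, rfl, rfl⟩
  · intro C hC v hv
    obtain ⟨m, hm⟩ := h6 C hC v hv
    refine ⟨Finset.univ.filter (fun d => G.att d ∈ C ∧ G.att d ≠ v ∧
      G.att (G.inv d) = m (G.att d)), ?_, ?_, ?_⟩
    · intro d hd
      simp only [Finset.mem_filter, Finset.mem_univ, true_and] at hd ⊢
      obtain ⟨ha, hb, hc⟩ := hd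
      obtain ⟨e1, e2, e3, e4⟩ := hm (G.att d) ha hb
      refine ⟨by rw [hc]; exact e1, by rw [hc]; exact e2, ?_⟩
      rw [G.inv_inv, hc, e4]
    · intro d hd
      simp only [Finset.mem_filter, Finset.mem_univ, true_and] at hd
      exact hd.1
    · intro u hu
      by_cases huv : u = v
      · rw [if_pos huv, Finset.card_eq_zero, Finset.filter_eq_empty_iff]
        intro d hd hdu
        simp only [Finset.mem_filter, Finset.mem_univ, true_and] at hd
        exact hd.2.1 (by rw [hdu, huv])
      · rw [if_neg huv, Finset.card_eq_one]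
        obtain ⟨e1, e2, ⟨d, hd1, hd2⟩, e4⟩ := hm u hu huv
        refine ⟨d, ?_⟩
        ext d'
        simp only [Finset.mem_filter, Finset.mem_univ, true_and, Finset.mem_singleton]
        constructor
        · rintro ⟨⟨_, _, hc⟩, hu'⟩
          apply hsimple
          · rw [hu', hd1]
          · rw [hc, hu', hd2]
        · rintro rfl
          exact ⟨⟨by rw [hd1]; exact hu, by rw [hd1]; exact huv, by rw [hd2, hd1]⟩, hd1⟩
  · have hex : ∀ s, ∃ d, s ∈ S → (G.att d = s ∧ G.att (G.inv d) ∈ μ s) := by
      intro s
      by_cases hs : s ∈ S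
      · obtain ⟨_, v, hv, d, hd1, hd2⟩ := h7 s hs
        exact ⟨d, fun _ => ⟨hd1, by rw [hd2]; exact hv⟩⟩
      · obtain ⟨d, _⟩ := hdart s
        exact ⟨d, fun h => absurd h hs⟩
    choose m hm using hex
    refine ⟨m, ?_, ?_⟩
    · intro s hs
      refine ⟨(hm s hs).1, ?_⟩
      exact h1 (μ s) (h7 s hs).1 _ (hm s hs).2
    · intro s hs t ht C hC hsC htC
      apply h8 s hs t ht
      have e1 : μ s = C := by
        by_contra hne
        exact (Finset.disjoint_left.mp (h3 _ (h7 s hs).1 C hC hne)) (hm s hs).2 hsC
      have e2 : μ t = C := by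
        by_contra hne
        exact (Finset.disjoint_left.mp (h3 _ (h7 t ht).1 C hC hne)) (hm t ht).2 htC
      rw [e1, e2]

theorem g1 : StmtG1 := by
  intro V D _ _ G hloop S Q hBar F hF hFS hFQ
  have hex : ∀ C : Finset V, ∃ M : Finset D, (∀ d ∈ M, G.inv d ∈ M) ∧ (∀ d ∈ M, G.att d ∈ C) ∧
      (C ∈ Q → (F.filter (fun d => G.att (G.inv d) ∈ C)).card = 1 → ∀ u ∈ C,
        (F.filter (fun d => G.att (G.inv d) = u)).card +
          (M.filter (fun d => G.att d = u)).card = 1) ∧
      (¬ (C ∈ Q ∧ (F.filter (fun d => G.att (G.inv d) ∈ C)).card = 1) → M = ∅) := by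
    intro C
    by_cases hC : C ∈ Q ∧ (F.filter (fun d => G.att (G.inv d) ∈ C)).card = 1
    · obtain ⟨hCQ, hc1⟩ := hC
      obtain ⟨d0, hd0⟩ := Finset.card_eq_one.mp hc1
      have hd0m : d0 ∈ F.filter (fun d => G.att (G.inv d) ∈ C) := by rw [hd0]; simp
      rw [Finset.mem_filter] at hd0m
      obtain ⟨M, hM1, hM2, hM3⟩ := hBar.crit C hCQ _ hd0m.2
      refine ⟨M, hM1, hM2, ?_, fun h => absurd ⟨hCQ, hc1⟩ h⟩
      intro _ _ u hu
      have hFu : F.filter (fun d => G.att (G.inv d) = u) =
          (F.filter (fun d => G.att (G.inv d) ∈ C)).filter (fun d => G.att (G.inv d) = u) := by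
        ext d
        simp only [Finset.mem_filter]
        constructor
        · rintro ⟨h1, h2⟩
          exact ⟨⟨h1, by rw [h2]; exact hu⟩, h2⟩
        · rintro ⟨⟨h1, _⟩, h2⟩
          exact ⟨h1, h2⟩
      rw [hFu, hd0, Finset.filter_singleton]
      by_cases h : G.att (G.inv d0) = u
      · rw [if_pos h]
        have := hM3 u hu
        rw [if_pos h.symm] at this
        rw [this]; simp
      · rw [if_neg h]
        have := hM3 u hu
        rw [if_neg (Ne.symm h)] at this
        rw [this]; simp
    · exact ⟨∅, by simp, by simp, fun h1 h2 => absurd ⟨h1, h2⟩ hC, fun _ => rfl⟩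
  choose M hM1 hM2 hM3 hM4 using hex
  -- the labelling
  let P : D → Prop := fun d => d ∈ F ∨ G.inv d ∈ F ∨ ∃ C ∈ Q, d ∈ M C
  refine ⟨fun d => decide (P d), ?_, ?_⟩
  · intro d
    have : P (G.inv d) ↔ P d := by
      simp only [P, G.inv_inv]
      constructor
      · rintro (h | h | ⟨C, hC, h⟩)
        · exact Or.inr (Or.inl h)
        · exact Or.inl h
        · refine Or.inr (Or.inr ⟨C, hC, ?_⟩)
          have := hM1 C _ h
          rwa [G.inv_inv] at this
      · rintro (h | h | ⟨C, hC, h⟩)
        · exact Or.inr (Or.inl h)
        · exact Or.inl h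
        · exact Or.inr (Or.inr ⟨C, hC, hM1 C _ h⟩)
    simp only [this]
  · intro v
    have hones : G.ones (fun d => decide (P d)) v = ((G.darts v).filter P).card := by
      unfold DG.ones
      congr 1
      apply Finset.filter_congr
      intro d _
      simp
    unfold DG.OkAt
    rw [hones]
    by_cases hv : v ∈ S
    · -- vertex in S
      have hset : (G.darts v).filter P = F.filter (fun d => G.att d = v) := by
        ext d
        simp only [Finset.mem_filter, mem_darts]
        constructor
        · rintro ⟨hd, h | h | ⟨C, hC, h⟩⟩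
          · exact ⟨h, hd⟩
          · exfalso
            have := (hF _ h).2
            rw [G.inv_inv, hd] at this
            exact this hv
          · exfalso
            have := hM2 C d h
            exact hBar.notS C hC _ this (by rw [hd]; exact hv)
        · rintro ⟨h, hd⟩
          exact ⟨hd, Or.inl h⟩
      rw [hset]
      exact hFS v hv
    · -- vertex in a component
      obtain ⟨C, hC, hvC⟩ := hBar.cov v hv
      have hset : (G.darts v).filter P =
          (F.filter (fun d => G.att (G.inv d) = v)).image G.inv ∪
            (M C).filter (fun d => G.att d = v) := by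
        ext d
        simp only [Finset.mem_filter, mem_darts, Finset.mem_union, Finset.mem_image]
        constructor
        · rintro ⟨hd, h | h | ⟨C', hC', h⟩⟩
          · exfalso
            have := (hF _ h).1
            rw [hd] at this
            exact hv this
          · left
            exact ⟨G.inv d, ⟨h, by rw [G.inv_inv]; exact hd⟩, G.inv_inv d⟩
          · right
            have hCC : C' = C := hBar.disj C' hC' C hC v (by rw [← hd]; exact hM2 C' d h) hvC
            rw [← hCC]
            exact ⟨h, hd⟩
        · rintro (⟨d', ⟨h1, h2⟩, rfl⟩ | ⟨h1, h2⟩)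
          · exact ⟨h2, Or.inr (Or.inl (by rw [G.inv_inv]; exact h1))⟩
          · exact ⟨h2, Or.inr (Or.inr ⟨C, hC, h1⟩)⟩
      have hdisj : Disjoint ((F.filter (fun d => G.att (G.inv d) = v)).image G.inv)
            ((M C).filter (fun d => G.att d = v)) := by
        rw [Finset.disjoint_left]
        intro d hd hd'
        rw [Finset.mem_image] at hd
        obtain ⟨d', hd1, rfl⟩ := hd
        rw [Finset.mem_filter] at hd1 hd'
        have e1 := hM1 C _ hd'.1
        rw [G.inv_inv] at e1
        have e2 := hM2 C _ e1
        exact hBar.notS C hC _ e2 (hF _ hd1.1).1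
      have hinj : Function.Injective G.inv := by
        intro a b hab
        have := congrArg G.inv hab
        rwa [G.inv_inv, G.inv_inv] at this
      rw [hset, Finset.card_union_of_disjoint hdisj, Finset.card_image_of_injective _ hinj]
      by_cases hc1 : (F.filter (fun d => G.att (G.inv d) ∈ C)).card = 1
      · left
        exact hM3 C hC hc1 v hvC
      · rw [hM4 C (by tauto)]
        simp only [Finset.filter_empty, Finset.card_empty, add_zero]
        rcases hFQ C hC with h | ⟨hcard, hall⟩
        · exact absurd h hc1
        · have hFv : (F.filter (fun d => G.att (G.inv d) = v)) =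
              (F.filter (fun d => G.att (G.inv d) ∈ C)) := by
            obtain ⟨w, hw⟩ := Finset.card_eq_one.mp hcard
            rw [hw] at hvC
            rw [Finset.mem_singleton] at hvC
            subst hvC
            ext d
            simp only [Finset.mem_filter, hw, Finset.mem_singleton]
          rcases hall v hvC with hdeg | ⟨hdeg, h2⟩
          · -- leaf
            rw [hdeg]
            have hle : (F.filter (fun d => G.att (G.inv d) = v)).card ≤ G.deg v := by
              rw [← Finset.card_image_of_injective _ hinj]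
              unfold DG.deg
              apply Finset.card_le_card
              intro d hd
              rw [Finset.mem_image] at hd
              obtain ⟨d', hd', rfl⟩ := hd
              rw [Finset.mem_filter] at hd'
              rw [mem_darts]
              exact hd'.2
            omega
          · right
            rw [hFv, h2, hdeg]

end Pool.Agent.H51.F14
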